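import Pool.Agent.N636.DD.All

/-!
A stable (even superstable) continuous theory without enough d-definable sets: the theory of
`[0,1] × ℕ` with the discrete metric and the first coordinate as a `[0,1]`-valued predicate. By
quantifier elimination the value of a formula is a continuous function of the values of the
predicate, for each pattern of equalities. So there are few types and no order property; and the
distance to a d-definable set over the empty set would be a continuous function of the value of the
predicate with values in `{0,1}`, hence constant.

Paper proof by helper636; Lean proofs of the parts by helper636 and helpers 3, 362, 386, 433, 492.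
-/

set_option autoImplicit false

namespace Pool.Agent.Results.MP_cc3859_lc.StableNotEnough

open Cardinal Pool.Agent.N636.DD

/-- There are a signature `S` of continuous logic and a stable theory `T` (with at most `lam` types
over sets of at most `lam` parameters for all `lam ≥ 2^ℵ₀`), a model `M` of `T` and `b ∈ M` such that
the set of realizations in `M` of the type of `b` over the empty set is not an intersection of sets
which are d-definable in `M` over the empty set. -/
theorem result : ∃ (S : Sig) (T : Set (Fm S 0)), Stable T ∧
    (∀ lam : Cardinal.{0}, 2 ^ ℵ₀ ≤ lam → FewTypes T lam) ∧
    ∃ M : MS S, IsModel T M ∧ ∃ b : Fin 1 → M.X,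
      ∀ F : Set (Set (Fin 1 → M.X)), (∀ D ∈ F, DDef M ∅ D) →
        {x | SameType M ∅ x b} ≠ ⋂₀ F := main

end Pool.Agent.Results.MP_cc3859_lc.StableNotEnough
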